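import Pool.Agent.H262R3.Lk.Stubs

/-!
# MH-EUL: consequences of the Euler product
-/

set_option autoImplicit false

open Complex

namespace Pool.Agent.W215.MH

open Pool.Agent.H262R3.Lk
open Pool.Agent.H318R2.Cr (Rgh V)

theorem rgh_one (z : ℕ) : Rgh z 1 := fun _ hp _ h => hp.one_lt.ne' (Nat.dvd_one.mp h)

theorem rgh_mul (z m n : ℕ) : Rgh z (m * n) ↔ Rgh z m ∧ Rgh z n := by
  constructor
  · intro h
    exact ⟨fun p hp hpz hd => h p hp hpz (hd.mul_right n),
      fun p hp hpz hd => h p hp hpz (hd.mul_left m)⟩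
  · rintro ⟨h1, h2⟩ p hp hpz hd
    rcases (Nat.Prime.dvd_mul hp).mp hd with h | h
    · exact h1 p hp hpz h
    · exact h2 p hp hpz h

/-- the completely multiplicative function -/
noncomputable def fh (z : ℕ) {q : ℕ} (χ : DirichletCharacter ℂ q) (σ : ℝ) (hσ : 0 < σ) :
    ℕ →*₀ ℂ where
  toFun n := fz z χ n * ((1 / (n : ℝ) ^ (1 + σ) : ℝ) : ℂ)
  map_zero' := by
    have : (0:ℝ) ^ (1 + σ) = 0 := Real.zero_rpow (by linarith)
    simp [this]
  map_one' := by
    simp [fz, rgh_one z]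
  map_mul' m n := by
    have h1 := rgh_mul z m n
    have h2 : (((m * n : ℕ) : ℝ)) ^ (1 + σ) = (m:ℝ) ^ (1 + σ) * (n:ℝ) ^ (1 + σ) := by
      push_cast
      exact Real.mul_rpow (by positivity) (by positivity)
    rw [h2]
    unfold fz
    by_cases hm : Rgh z m
    · by_cases hn : Rgh z n
      · rw [if_pos (h1.mpr ⟨hm, hn⟩), if_pos hm, if_pos hn]
        push_cast
        rw [map_mul]
        ring
      · rw [if_neg (fun h => hn (h1.mp h).2), if_neg hn]
        simp
    · rw [if_neg (fun h => hm (h1.mp h).1), if_neg hm]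
      simp

theorem fh_apply (z : ℕ) {q : ℕ} (χ : DirichletCharacter ℂ q) (σ : ℝ) (hσ : 0 < σ)
    (n : ℕ) : fh z χ σ hσ n = fz z χ n * ((1 / (n : ℝ) ^ (1 + σ) : ℝ) : ℂ) := rfl

theorem fz_norm (z : ℕ) {q : ℕ} (χ : DirichletCharacter ℂ q) (n : ℕ) : ‖fz z χ n‖ ≤ 1 := by
  unfold fz
  split_ifs
  · exact DirichletCharacter.norm_le_one χ _
  · simp

theorem fh_norm (z : ℕ) {q : ℕ} (χ : DirichletCharacter ℂ q) (σ : ℝ) (hσ : 0 < σ)
    (n : ℕ) : ‖fh z χ σ hσ n‖ ≤ 1 / (n : ℝ) ^ (1 + σ) := by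
  rw [fh_apply, norm_mul, Complex.norm_real, Real.norm_of_nonneg (by positivity)]
  exact mul_le_of_le_one_left (by positivity) (fz_norm z χ n)

theorem fh_summable (z : ℕ) {q : ℕ} (χ : DirichletCharacter ℂ q) (σ : ℝ)
    (hσ : 0 < σ) : Summable (‖fh z χ σ hσ ·‖) :=
  Summable.of_nonneg_of_le (fun _ => norm_nonneg _) (fh_norm z χ σ hσ)
    (Real.summable_one_div_nat_rpow.mpr (by linarith))

/-- the Euler factor -/
noncomputable def el (z : ℕ) {q : ℕ} (χ : DirichletCharacter ℂ q) (σ : ℝ) (hσ : 0 < σ)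
    (p : Nat.Primes) : ℝ := (-log (1 - fh z χ σ hσ p)).re

theorem el_summable' (z : ℕ) {q : ℕ} (χ : DirichletCharacter ℂ q) (σ : ℝ) (hσ : 0 < σ) :
    Summable (fun p : Nat.Primes => -log (1 - fh z χ σ hσ p)) := by
  have h1 : Summable (fun p : Nat.Primes => ‖fh z χ σ hσ p‖) :=
    (fh_summable z χ σ hσ).comp_injective (Nat.Primes.coe_nat_injective)
  exact h1.of_norm.clog_one_sub.neg

theorem el_summable (z : ℕ) {q : ℕ} (χ : DirichletCharacter ℂ q) (σ : ℝ) (hσ : 0 < σ) :
    Summable (el z χ σ hσ) := by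
  have := (Complex.hasSum_re (el_summable' z χ σ hσ).hasSum).summable
  exact this

theorem norm_L (z : ℕ) {q : ℕ} (χ : DirichletCharacter ℂ q) (σ : ℝ) (hσ : 0 < σ) :
    ‖Lj z χ 0 σ‖ = Real.exp (∑' p : Nat.Primes, el z χ σ hσ p) := by
  have h1 : Lj z χ 0 σ = ∑' n, fh z χ σ hσ n := by
    unfold Lj
    apply tsum_congr
    intro n
    rw [fh_apply, pow_zero]
  have h2 := EulerProduct.exp_tsum_primes_log_eq_tsum (fh_summable z χ σ hσ)
  rw [h1, ← h2, Complex.norm_exp]
  congr 1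
  exact Complex.re_tsum (el_summable' z χ σ hσ)

theorem el_eq (z : ℕ) {q : ℕ} (χ : DirichletCharacter ℂ q) (σ : ℝ) (hσ : 0 < σ)
    (p : Nat.Primes) : el z χ σ hσ p = -Real.log ‖1 - fh z χ σ hσ p‖ := by
  rw [el, Complex.neg_re, Complex.log_re]

theorem fh_prime (z : ℕ) {q : ℕ} (χ : DirichletCharacter ℂ q) (σ : ℝ) (hσ : 0 < σ)
    (p : Nat.Primes) : fh z χ σ hσ p =
      if z < p then ((1 / ((p : ℕ) : ℝ) ^ (1 + σ) : ℝ) : ℂ) * χ ((p : ℕ) : ZMod q) else 0 := by
  rw [fh_apply]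
  unfold fz
  by_cases h : z < p
  · have h1 : Rgh z p := by
      intro r hr hrz hd
      rcases (Nat.dvd_prime p.2).mp hd with h2 | h2
      · exact hr.one_lt.ne' h2
      · omega
    rw [if_pos h1, if_pos h, mul_comm]
  · have h1 : ¬ Rgh z p := fun h1 => h1 p p.2 (by omega) dvd_rfl
    rw [if_neg h1, if_neg h, zero_mul]

theorem re_log_comb_nonneg' {a : ℝ} (ha₀ : 0 ≤ a) (ha₁ : a < 1) {z : ℂ} (hz : ‖z‖ = 1) :
      0 ≤ 3 * (-log (1 - a)).re + 4 * (-log (1 - a * z)).re + (-log (1 - a * z ^ 2)).re := by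
  have hac₀ : ‖(a : ℂ)‖ < 1 := by
    simp only [Complex.norm_of_nonneg ha₀, ha₁]
  have hac₁ : ‖a * z‖ < 1 := by rwa [norm_mul, hz, mul_one]
  have hac₂ : ‖a * z ^ 2‖ < 1 := by rwa [norm_mul, norm_pow, hz, one_pow, mul_one]
  rw [← ((hasSum_re <| hasSum_taylorSeries_neg_log hac₀).mul_left 3).add
    ((hasSum_re <| hasSum_taylorSeries_neg_log hac₁).mul_left 4) |>.add
    (hasSum_re <| hasSum_taylorSeries_neg_log hac₂) |>.tsum_eq]
  refine tsum_nonneg fun n ↦ ?_
  simp only [← ofReal_pow, div_natCast_re, ofReal_re, mul_pow, mul_re, ofReal_im, zero_mul,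
    sub_zero]
  rcases n.eq_zero_or_pos with rfl | hn
  · simp
  · simp only [← mul_div_assoc, ← add_div]
    refine div_nonneg ?_ n.cast_nonneg
    rw [← pow_mul, pow_mul', sq, mul_re, ← sq, ← sq, ← sq_norm_sub_sq_re, norm_pow, hz]
    have : (0 : ℝ) ≤ 2 * a ^ n * ((z ^ n).re + 1) ^ 2 := by positivity
    rw [one_pow]
    nlinarith [this]

theorem prime_data (z q : ℕ) (hq : 0 < q) (hqz : q ≤ z) (σ : ℝ) (hσ : 0 < σ) (p : Nat.Primes)
    (h : z < p) : 0 ≤ 1 / ((p : ℕ) : ℝ) ^ (1 + σ) ∧ 1 / ((p : ℕ) : ℝ) ^ (1 + σ) < 1 ∧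
      IsUnit (((p : ℕ)) : ZMod q) := by
  have hp1 : (1 : ℝ) < (p : ℕ) := by exact_mod_cast p.2.one_lt
  refine ⟨by positivity, ?_, ?_⟩
  · rw [div_lt_one (by positivity)]
    exact Real.one_lt_rpow hp1 (by linarith)
  · rw [ZMod.isUnit_iff_coprime]
    rw [Nat.Prime.coprime_iff_not_dvd p.2]
    intro hd
    have := Nat.le_of_dvd hq hd
    omega

theorem sgn {q : ℕ} (χ : DirichletCharacter ℂ q) (hχ : χ ^ 2 = 1) (x : ZMod q) (hx : IsUnit x) :
    χ x = 1 ∨ χ x = -1 := by
  have h1 : (χ ^ 2) x = 1 := by rw [hχ, MulChar.one_apply hx]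
  rw [MulChar.pow_apply' χ two_ne_zero] at h1
  have h2 : (χ x - 1) * (χ x + 1) = 0 := by linear_combination h1
  rcases mul_eq_zero.mp h2 with h | h
  · left; linear_combination h
  · right; linear_combination h

theorem eul : St_EUL := by
  intro z q χ ψ σ hz hq hqz hσ
  simp only [norm_L z _ σ hσ]
  have S1 := el_summable z (1 : DirichletCharacter ℂ q) σ hσ
  have Sχ := el_summable z χ σ hσ
  have Sψ := el_summable z ψ σ hσ
  refine ⟨?_, ?_, ?_⟩
  · have S2 := el_summable z (χ ^ 2) σ hσ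
    rw [← Real.exp_nat_mul, ← Real.exp_nat_mul, ← Real.exp_add, ← Real.exp_add]
    apply Real.one_le_exp
    push_cast
    rw [← tsum_mul_left, ← tsum_mul_left, ← (S1.mul_left 3).tsum_add (Sχ.mul_left 4),
      ← ((S1.mul_left 3).add (Sχ.mul_left 4)).tsum_add S2]
    apply tsum_nonneg
    intro p
    unfold el
    rw [fh_prime, fh_prime, fh_prime]
    by_cases h : z < p
    · obtain ⟨h1, h2, h3⟩ := prime_data z q hq hqz σ hσ p h
      rw [if_pos h, if_pos h, if_pos h, MulChar.one_apply h3, mul_one,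
        MulChar.pow_apply' χ two_ne_zero]
      apply re_log_comb_nonneg' h1 h2
      rw [← h3.unit_spec]
      exact DirichletCharacter.unit_norm_eq_one χ h3.unit
    · rw [if_neg h, if_neg h, if_neg h]
      simp
  · intro hχ
    rw [← Real.exp_add]
    apply Real.one_le_exp
    rw [← S1.tsum_add Sχ]
    apply tsum_nonneg
    intro p
    rw [el_eq, el_eq, fh_prime, fh_prime]
    by_cases h : z < p
    · obtain ⟨h1, h2, h3⟩ := prime_data z q hq hqz σ hσ p h
      rw [if_pos h, if_pos h, MulChar.one_apply h3, mul_one]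
      set a : ℝ := 1 / ((p : ℕ) : ℝ) ^ (1 + σ) with ha
      have e1 : ‖(1 : ℂ) - (a : ℂ)‖ = 1 - a := by
        rw [← Complex.ofReal_one, ← Complex.ofReal_sub, Complex.norm_real,
          Real.norm_of_nonneg (by linarith)]
      have e2 : ‖(1 : ℂ) + (a : ℂ)‖ = 1 + a := by
        rw [← Complex.ofReal_one, ← Complex.ofReal_add, Complex.norm_real,
          Real.norm_of_nonneg (by linarith)]
      have l1 : Real.log (1 - a) ≤ 0 := Real.log_nonpos (by linarith) (by linarith)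
      have l2 : Real.log (1 - a) + Real.log (1 + a) ≤ 0 := by
        rw [← Real.log_mul (by linarith) (by linarith)]
        apply Real.log_nonpos <;> nlinarith
      rcases sgn χ hχ _ h3 with e | e
      · rw [e, mul_one, e1]
        linarith
      · rw [e, mul_neg_one, sub_neg_eq_add, e1, e2]
        linarith
    · rw [if_neg h, if_neg h]
      simp
  · intro hχ hψ
    have S2 := el_summable z (χ * ψ) σ hσ
    rw [← Real.exp_add, ← Real.exp_add, ← Real.exp_add]
    apply Real.one_le_exp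
    rw [← S1.tsum_add Sχ, ← (S1.add Sχ).tsum_add Sψ, ← ((S1.add Sχ).add Sψ).tsum_add S2]
    apply tsum_nonneg
    intro p
    rw [el_eq, el_eq, el_eq, el_eq, fh_prime, fh_prime, fh_prime, fh_prime]
    by_cases h : z < p
    · obtain ⟨h1, h2, h3⟩ := prime_data z q hq hqz σ hσ p h
      rw [if_pos h, if_pos h, if_pos h, if_pos h, MulChar.one_apply h3, mul_one,
        MulChar.mul_apply]
      set a : ℝ := 1 / ((p : ℕ) : ℝ) ^ (1 + σ) with ha
      have e1 : ‖(1 : ℂ) - (a : ℂ)‖ = 1 - a := by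
        rw [← Complex.ofReal_one, ← Complex.ofReal_sub, Complex.norm_real,
          Real.norm_of_nonneg (by linarith)]
      have e2 : ‖(1 : ℂ) + (a : ℂ)‖ = 1 + a := by
        rw [← Complex.ofReal_one, ← Complex.ofReal_add, Complex.norm_real,
          Real.norm_of_nonneg (by linarith)]
      have l1 : Real.log (1 - a) ≤ 0 := Real.log_nonpos (by linarith) (by linarith)
      have l2 : Real.log (1 - a) + Real.log (1 + a) ≤ 0 := by
        rw [← Real.log_mul (by linarith) (by linarith)]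
        apply Real.log_nonpos <;> nlinarith
      rcases sgn χ hχ _ h3 with e | e <;> rcases sgn ψ hψ _ h3 with e' | e'
      · rw [e, e']
        simp only [mul_one, e1]
        linarith
      · rw [e, e']
        simp only [mul_one, mul_neg, sub_neg_eq_add, e1, e2]
        linarith
      · rw [e, e']
        simp only [mul_one, mul_neg, sub_neg_eq_add, e1, e2]
        linarith
      · rw [e, e']
        simp only [mul_one, mul_neg, sub_neg_eq_add, e1, e2, neg_neg]
        linarith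
    · rw [if_neg h, if_neg h, if_neg h, if_neg h]
      simp

end Pool.Agent.W215.MH
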